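import Pool.Agent.N661.BR.Stm2

/-!
# The constant for cosine polynomials: `S_KVC`
-/

set_option autoImplicit false
open MeasureTheory
namespace Pool.Agent.N130.BRKVC

open Pool.Agent.N661.BR

theorem int_cos (k : ℤ) : ∫ x in (0:ℝ)..Real.pi, Real.cos ((k : ℝ) * x) =
    if k = 0 then Real.pi else 0 := by
  by_cases hk : k = 0
  · simp [hk]
  · have hk' : (k : ℝ) ≠ 0 := by exact_mod_cast hk
    rw [if_neg hk, intervalIntegral.integral_comp_mul_left (fun x => Real.cos x) hk',
      integral_cos]
    simp

theorem int_cos_cos (i j : ℤ) :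
    ∫ x in (0:ℝ)..Real.pi, Real.cos ((i : ℝ) * x) * Real.cos ((j : ℝ) * x) =
      Real.pi / 2 * ((if i = j then 1 else 0) + if i = -j then 1 else 0) := by
  have h : ∀ x : ℝ, Real.cos ((i : ℝ) * x) * Real.cos ((j : ℝ) * x) =
      1 / 2 * (Real.cos (((i - j : ℤ) : ℝ) * x) + Real.cos (((i + j : ℤ) : ℝ) * x)) := by
    intro x
    push_cast
    rw [sub_mul, add_mul, Real.cos_sub, Real.cos_add]
    ring
  simp only [h]
  rw [intervalIntegral.integral_const_mul, intervalIntegral.integral_add
    (Continuous.intervalIntegrable (by fun_prop) _ _)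
    (Continuous.intervalIntegrable (by fun_prop) _ _), int_cos, int_cos]
  have e1 : i - j = 0 ↔ i = j := sub_eq_zero
  have e2 : i + j = 0 ↔ i = -j := add_eq_zero_iff_eq_neg
  simp only [e1, e2]
  split_ifs <;> ring

theorem int_CP (v : ℤ →₀ ℝ) : ∫ x in (0:ℝ)..Real.pi, CP v x ^ 2 = Real.pi / 2 * KV v 0 := by
  have h : ∀ x : ℝ, CP v x ^ 2 = ∑ i ∈ v.support, ∑ j ∈ v.support,
      v i * v j * (Real.cos ((i : ℝ) * x) * Real.cos ((j : ℝ) * x)) := by
    intro x
    unfold CP
    rw [sq, Finset.sum_mul_sum]
    refine Finset.sum_congr rfl fun i _ => Finset.sum_congr rfl fun j _ => ?_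
    ring
  simp only [h]
  rw [intervalIntegral.integral_finsetSum]
  · have h2 : ∀ i ∈ v.support, ∫ x in (0:ℝ)..Real.pi, ∑ j ∈ v.support,
        v i * v j * (Real.cos ((i : ℝ) * x) * Real.cos ((j : ℝ) * x)) =
        Real.pi / 2 * (v i * (v i + v (2 * 0 - i))) := by
      intro i hi
      rw [intervalIntegral.integral_finsetSum]
      · have h3 : ∀ j ∈ v.support, ∫ x in (0:ℝ)..Real.pi,
            v i * v j * (Real.cos ((i : ℝ) * x) * Real.cos ((j : ℝ) * x)) =
            Real.pi / 2 * v i * ((if j = i then v j else 0) + if j = -i then v j else 0) := by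
          intro j _
          rw [intervalIntegral.integral_const_mul, int_cos_cos]
          have e1 : i = j ↔ j = i := eq_comm
          have e2 : i = -j ↔ j = -i := by
            constructor <;> intro h <;> omega
          simp only [e1, e2]
          split_ifs <;> ring
        rw [Finset.sum_congr rfl h3, ← Finset.mul_sum, Finset.sum_add_distrib,
          Finset.sum_ite_eq' v.support i, Finset.sum_ite_eq' v.support (-i), if_pos hi]
        have h4 : (if -i ∈ v.support then v (-i) else 0) = v (2 * 0 - i) := by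
          have e : 2 * 0 - i = -i := by ring
          rw [e]
          split_ifs with h5
          · rfl
          · exact (Finsupp.notMem_support_iff.1 h5).symm
        rw [h4]
        ring
      · intro j _
        exact Continuous.intervalIntegrable (by fun_prop) _ _
    rw [Finset.sum_congr rfl h2, ← Finset.mul_sum]
    rfl
  · intro i _
    exact Continuous.intervalIntegrable (by fun_prop) _ _

/-- `S_KVC` -/
theorem KVC : S_KVC := by
  intro v hv
  refine ⟨⟨hv.2, ?_⟩, ?_⟩
  · rw [← hv.2]
    refine Finset.sum_congr rfl fun j hj => ?_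
    have h1 : Even j.natAbs := Int.natAbs_even.2 (hv.1 j hj)
    rw [h1.neg_one_pow, one_mul]
  · rw [int_CP]
    have := Real.pi_ne_zero
    field_simp

end Pool.Agent.N130.BRKVC
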