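import Pool.Agent.N906.NT.Stm

set_option autoImplicit false

/-!
# Boxes with a large prime (S_PRM)
-/

namespace Pool.Agent.N130.NT

open Finset Pool.Agent.N906.NT

theorem cnt {n : ℕ} (F : Finset (Fin n → ℤ)) (φ : (Fin n → ℤ) → (Fin n → ℤ))
    (hinj : ∀ x ∈ F, ∀ y ∈ F, φ x = φ y → x = y) (N : Fin n → ℝ) (hN : ∀ k, 0 ≤ N k)
    (hφ : ∀ x ∈ F, ∀ k, |(φ x k : ℝ)| ≤ N k) : (F.card : ℝ) ≤ ∏ k, (2 * N k + 1) := by
  classical
  have h1 : F.card ≤ (Fintype.piFinset (fun k => Finset.Icc (-⌊N k⌋) ⌊N k⌋)).card := by
    apply Finset.card_le_card_of_injOn φ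
    · intro x hx
      rw [Finset.mem_coe, Fintype.mem_piFinset]
      intro k
      rw [Finset.mem_Icc]
      have h := hφ x hx k
      have h2 : |φ x k| ≤ ⌊N k⌋ := by
        rw [Int.le_floor]
        push_cast
        exact h
      exact abs_le.1 h2
    · intro x hx y hy h
      exact hinj x hx y hy h
  rw [Fintype.card_piFinset] at h1
  calc (F.card : ℝ) ≤ ((∏ k, (Finset.Icc (-⌊N k⌋) ⌊N k⌋).card : ℕ) : ℝ) := by exact_mod_cast h1
    _ = ∏ k, ((Finset.Icc (-⌊N k⌋) ⌊N k⌋).card : ℝ) := by push_cast; rfl
    _ ≤ _ := by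
      apply Finset.prod_le_prod (fun _ _ => Nat.cast_nonneg _)
      intro k _
      rw [Int.card_Icc]
      have h3 : 0 ≤ ⌊N k⌋ := Int.floor_nonneg.2 (hN k)
      have h4 : ((⌊N k⌋ + 1 - -⌊N k⌋).toNat : ℤ) = 2 * ⌊N k⌋ + 1 := by
        rw [Int.toNat_of_nonneg (by omega)]; ring
      have h5 : ((⌊N k⌋ + 1 - -⌊N k⌋).toNat : ℝ) = 2 * (⌊N k⌋ : ℝ) + 1 := by exact_mod_cast h4
      rw [h5]
      linarith [Int.floor_le (N k)]

theorem prod_g {n : ℕ} (B N : Fin n → ℝ) (i j d : Fin n) (a b c : ℝ) (hN : ∀ k, 0 ≤ N k)
    (h : ∀ k, 2 * N k + 1 ≤ 3 * ((if k = i then a else 1) * ((if k = j then b else 1) *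
      (if k = d then c else 1))) * B k) :
    ∏ k, (2 * N k + 1) ≤ 3 ^ n * (a * (b * c)) * ∏ k, B k := by
  calc ∏ k, (2 * N k + 1) ≤ ∏ k, (3 * ((if k = i then a else 1) * ((if k = j then b else 1) *
        (if k = d then c else 1))) * B k) :=
        Finset.prod_le_prod (fun k _ => by have := hN k; linarith) (fun k _ => h k)
    _ = _ := by
      rw [Finset.prod_mul_distrib, Finset.prod_mul_distrib, Finset.prod_mul_distrib,
        Finset.prod_mul_distrib]
      simp

theorem ext_of_sum {n : ℕ} {x y : Fin n → ℤ} (hx : ∑ k, x k = 0) (hy : ∑ k, y k = 0) (d : Fin n)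
    (h : ∀ k, k ≠ d → x k = y k) : x = y := by
  have h1 : x d = y d := by
    rw [← Finset.add_sum_erase _ _ (Finset.mem_univ d)] at hx hy
    have h2 : ∑ k ∈ univ.erase d, x k = ∑ k ∈ univ.erase d, y k :=
      Finset.sum_congr rfl (fun k hk => h k (Finset.ne_of_mem_erase hk))
    rw [h2] at hx
    linarith
  funext k
  by_cases hk : k = d
  · rw [hk, h1]
  · exact h k hk

theorem two_big {n : ℕ} (hn : 3 ≤ n) {X : ℝ} {B : Fin n → ℝ} {l : Fin n}
    (hB : ∀ k, 1 ≤ B k ∧ B k ≤ X) (hl : B l = X) {x : Fin n → ℤ} (hs : ∑ k, x k = 0)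
    (hx : ∀ k, B k / 2 < |(x k : ℝ)| ∧ |(x k : ℝ)| ≤ B k) : ∃ k, k ≠ l ∧ X / (2 * n) ≤ B k := by
  by_contra hcon
  push Not at hcon
  have hn0 : (0 : ℝ) < n := by exact_mod_cast (by omega : 0 < n)
  have hX : 1 ≤ X := hl ▸ (hB l).1
  have h1 : (x l : ℝ) = - ∑ k ∈ univ.erase l, (x k : ℝ) := by
    rw [← Finset.add_sum_erase _ _ (Finset.mem_univ l)] at hs
    have : ((x l + ∑ k ∈ univ.erase l, x k : ℤ) : ℝ) = 0 := by rw [hs]; simp
    push_cast at this
    linarith
  have h2 : |(x l : ℝ)| ≤ X / 2 := by
    rw [h1, abs_neg]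
    calc |∑ k ∈ univ.erase l, (x k : ℝ)| ≤ ∑ k ∈ univ.erase l, |(x k : ℝ)| :=
          Finset.abs_sum_le_sum_abs _ _
      _ ≤ ∑ k ∈ univ.erase l, X / (2 * n) := Finset.sum_le_sum fun k hk =>
          (hx k).2.trans (hcon k (Finset.ne_of_mem_erase hk)).le
      _ ≤ ∑ k : Fin n, X / (2 * n) := by
          apply Finset.sum_le_sum_of_subset_of_nonneg (Finset.erase_subset _ _)
          intro _ _ _
          positivity
      _ = X / 2 := by
          rw [Finset.sum_const, Finset.card_univ, Fintype.card_fin, nsmul_eq_mul]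
          field_simp
  have h3 := (hx l).1
  rw [hl] at h3
  linarith

theorem div_le {q : ℕ} (hq : 0 < q) {x : ℤ} {B : ℝ} (hd : (q : ℤ) ∣ x) (hx : |(x : ℝ)| ≤ B) :
    |((x / (q : ℤ) : ℤ) : ℝ)| ≤ B / q := by
  obtain ⟨c, rfl⟩ := hd
  have hq' : (q : ℤ) ≠ 0 := by exact_mod_cast hq.ne'
  have hqr : (0 : ℝ) < q := by exact_mod_cast hq
  rw [Int.mul_ediv_cancel_left _ hq', le_div_iff₀ hqr]
  push_cast at hx
  rw [abs_mul, abs_of_pos hqr] at hx
  linarith

theorem div_le' {q : ℕ} (hq : 0 < q) {x : ℤ} {B : ℝ} (hx : |(x : ℝ)| ≤ B) :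
    |((x / (q : ℤ) : ℤ) : ℝ)| ≤ B / q + 1 := by
  have hqr : (0 : ℝ) < q := by exact_mod_cast hq
  have hq' : (0 : ℤ) < q := by exact_mod_cast hq
  have h1 := Int.mul_ediv_add_emod x q
  have h2 := Int.emod_nonneg x hq'.ne'
  have h3 := Int.emod_lt_of_pos x hq'
  have h1' : (q : ℝ) * ((x / (q : ℤ) : ℤ) : ℝ) + ((x % (q : ℤ) : ℤ) : ℝ) = x := by exact_mod_cast h1
  have h2' : (0 : ℝ) ≤ ((x % (q : ℤ) : ℤ) : ℝ) := by exact_mod_cast h2
  have h3' : ((x % (q : ℤ) : ℤ) : ℝ) < q := by exact_mod_cast h3
  have h4 : |(q : ℝ) * ((x / (q : ℤ) : ℤ) : ℝ)| ≤ B + q := by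
    have : (q : ℝ) * ((x / (q : ℤ) : ℤ) : ℝ) = x - ((x % (q : ℤ) : ℤ) : ℝ) := by linarith
    rw [this]
    rw [abs_le] at hx ⊢
    constructor <;> linarith [hx.1, hx.2]
  rw [abs_mul, abs_of_pos hqr] at h4
  have h5 : B / q + 1 = (B + q) / q := by field_simp
  rw [h5, le_div_iff₀ hqr]
  linarith

theorem le_of_dvd_abs {q : ℕ} {x : ℤ} {B : ℝ} (hB : 1 ≤ B) (hd : (q : ℤ) ∣ x) (h1 : B / 2 < |(x : ℝ)|)
    (h2 : |(x : ℝ)| ≤ B) : (q : ℝ) ≤ B := by
  have hx : x ≠ 0 := by
    rintro rfl
    simp at h1
    linarith
  have h3 : (q : ℤ) ≤ |x| := Int.le_of_dvd (abs_pos.2 hx) ((dvd_abs _ _).2 hd)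
  have h4 : (q : ℝ) ≤ |(x : ℝ)| := by exact_mod_cast h3
  linarith

/-- the constant -/
theorem prm : S_PRM := by
  classical
  intro n hn
  have hn0 : (0 : ℝ) < n := by exact_mod_cast (by omega : 0 < n)
  have hn1 : (1 : ℝ) ≤ n := by exact_mod_cast (by omega : 1 ≤ n)
  refine ⟨3 ^ n * (2 * n * (n * (3 * n + 3))), by positivity, ?_⟩
  intro X B p l hp hB hl
  have hX : 1 ≤ X := hl ▸ (hB l).1
  have hX0 : 0 < X := by linarith
  have hp0 : 0 < p := hp.pos
  have hpr : (0 : ℝ) < p := by exact_mod_cast hp0
  have hB0 : ∀ k, 0 < B k := fun k => by linarith [(hB k).1]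
  have hprod : 0 < ∏ k, B k := Finset.prod_pos fun k _ => hB0 k
  have hbig : ∀ d : Fin n, X / (2 * n) ≤ B d → 1 ≤ 3 * (2 * n / (3 * X)) * B d := by
    intro d hd
    have h1 : 3 * (2 * n / (3 * X)) * B d = B d / (X / (2 * n)) := by field_simp
    rw [h1, le_div_iff₀ (by positivity), one_mul]
    exact hd
  have hlbig : X / (2 * n) ≤ B l := by
    rw [hl, div_le_iff₀ (by positivity)]
    nlinarith
  constructor
  · intro i F hF
    rcases F.eq_empty_or_nonempty with rfl | ⟨x0, hx0⟩
    · rw [Finset.card_empty, Nat.cast_zero]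
      positivity
    obtain ⟨k, hk, hkb⟩ := two_big hn hB hl (hF x0 hx0).1 (hF x0 hx0).2.1
    obtain ⟨d, hdi, hd⟩ : ∃ d, d ≠ i ∧ X / (2 * n) ≤ B d := by
      by_cases h : k = i
      · exact ⟨l, fun h' => hk (h.trans h'.symm), hlbig⟩
      · exact ⟨k, h, hkb⟩
    have hq : 0 < p ^ 2 := by positivity
    have hdv : ∀ x ∈ F, ((p ^ 2 : ℕ) : ℤ) ∣ x i := fun x hx => by
      have := (hF x hx).2.2
      push_cast
      exact this
    have hpi : (((p ^ 2 : ℕ)) : ℝ) ≤ B i :=
      le_of_dvd_abs (hB i).1 (hdv x0 hx0) ((hF x0 hx0).2.1 i).1 ((hF x0 hx0).2.1 i).2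
    have hqr : (0 : ℝ) < ((p ^ 2 : ℕ) : ℝ) := by exact_mod_cast hq
    set N : Fin n → ℝ := fun k => if k = d then 0 else if k = i then B i / (p ^ 2 : ℕ) else B k with hN
    have hN0 : ∀ k, 0 ≤ N k := by
      intro k
      rw [hN]
      simp only
      split_ifs
      · exact le_rfl
      · exact div_nonneg (hB0 i).le hqr.le
      · exact (hB0 k).le
    have h1 := cnt F (fun x k => if k = d then 0 else if k = i then x k / ((p ^ 2 : ℕ) : ℤ) else x k)
      (by
        intro x hx y hy h
        apply ext_of_sum (hF x hx).1 (hF y hy).1 d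
        intro k hk
        have h2 := congrFun h k
        simp only [if_neg hk] at h2
        by_cases hki : k = i
        · subst hki
          simp only [if_true] at h2
          obtain ⟨u, hu⟩ := hdv x hx
          obtain ⟨v, hv⟩ := hdv y hy
          have hq' : ((p ^ 2 : ℕ) : ℤ) ≠ 0 := by exact_mod_cast hq.ne'
          rw [hu, hv, Int.mul_ediv_cancel_left _ hq', Int.mul_ediv_cancel_left _ hq'] at h2
          rw [hu, hv, h2]
        · simpa only [if_neg hki] using h2)
      N hN0 (by
        intro x hx k
        rw [hN]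
        simp only
        by_cases hkd : k = d
        · rw [if_pos hkd, if_pos hkd]
          simp
        · rw [if_neg hkd, if_neg hkd]
          by_cases hki : k = i
          · rw [if_pos hki, if_pos hki, hki]
            exact div_le hq (hdv x hx) ((hF x hx).2.1 i).2
          · rw [if_neg hki, if_neg hki]
            exact ((hF x hx).2.1 k).2)
    have h2 := prod_g B N i i d (1 / ((p ^ 2 : ℕ) : ℝ)) 1 (2 * n / (3 * X)) hN0 (by
      intro k
      rw [hN]
      simp only
      by_cases hkd : k = d
      · have hki : k ≠ i := fun h => hdi (hkd.symm.trans h)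
        rw [if_pos hkd, if_neg hki, if_neg hki, if_pos hkd, hkd]
        have := hbig d hd
        simp only [one_mul, mul_zero, zero_add]
        exact this
      · rw [if_neg hkd, if_neg hkd]
        by_cases hki : k = i
        · rw [if_pos hki, if_pos hki, if_pos hki, hki]
          have h3 : 1 ≤ B i / ((p ^ 2 : ℕ) : ℝ) := by rw [le_div_iff₀ hqr]; linarith
          have h4 : 3 * (1 / ((p ^ 2 : ℕ) : ℝ) * (1 * 1)) * B i = 3 * (B i / ((p ^ 2 : ℕ) : ℝ)) := by
            field_simp
          rw [h4]
          linarith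
        · rw [if_neg hki, if_neg hki, if_neg hki]
          have := (hB k).1
          linarith)
    refine (h1.trans h2).trans ?_
    have h5 : (((p ^ 2 : ℕ)) : ℝ) = (p : ℝ) ^ 2 := by push_cast; ring
    rw [h5]
    have h6 : 3 ^ n * (1 / (p : ℝ) ^ 2 * (1 * (2 * n / (3 * X)))) * ∏ k, B k =
        (3 ^ n * (2 * n) / 3) * (∏ k, B k) / (X * (p : ℝ) ^ 2) := by field_simp
    rw [h6]
    apply div_le_div_of_nonneg_right _ (by positivity)
    apply mul_le_mul_of_nonneg_right _ hprod.le
    have h7 : (3 : ℝ) ^ n * (2 * n) / 3 = 3 ^ n * (2 * n) * (1 / 3) := by ring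
    have h8 : (3 : ℝ) ^ n * (2 * n * (n * (3 * n + 3))) = 3 ^ n * (2 * n) * (n * (3 * n + 3)) := by ring
    rw [h7, h8]
    apply mul_le_mul_of_nonneg_left _ (by positivity)
    nlinarith
  · intro i j F hij hF
    rcases F.eq_empty_or_nonempty with rfl | ⟨x0, hx0⟩
    · rw [Finset.card_empty, Nat.cast_zero]
      positivity
    have hdi : ∀ x ∈ F, (p : ℤ) ∣ x i := fun x hx => (hF x hx).2.2.2.1
    have hdj : ∀ x ∈ F, (p : ℤ) ∣ x j := fun x hx => (hF x hx).2.2.2.2
    have hxB : ∀ x ∈ F, ∀ k, B k / 2 < |(x k : ℝ)| ∧ |(x k : ℝ)| ≤ B k := fun x hx => (hF x hx).2.2.1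
    have hpi : (p : ℝ) ≤ B i := le_of_dvd_abs (hB i).1 (hdi x0 hx0) (hxB x0 hx0 i).1 (hxB x0 hx0 i).2
    have hpj : (p : ℝ) ≤ B j := le_of_dvd_abs (hB j).1 (hdj x0 hx0) (hxB x0 hx0 j).1 (hxB x0 hx0 j).2
    obtain ⟨k, hk, hkb⟩ := two_big hn hB hl (hF x0 hx0).1 (hxB x0 hx0)
    have hp' : (p : ℤ) ≠ 0 := by exact_mod_cast hp0.ne'
    by_cases hex : ∃ d, d ≠ i ∧ d ≠ j ∧ X / (2 * n) ≤ B d
    · obtain ⟨d, hdi', hdj', hd⟩ := hex
      set N : Fin n → ℝ := fun k => if k = d then 0 else if k = i ∨ k = j then B k / p else B k with hN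
      have hN0 : ∀ k, 0 ≤ N k := by
        intro k
        rw [hN]
        simp only
        split_ifs
        · exact le_rfl
        · exact div_nonneg (hB0 k).le hpr.le
        · exact (hB0 k).le
      have h1 := cnt F (fun x k => if k = d then 0 else if k = i ∨ k = j then x k / (p : ℤ) else x k)
        (by
          intro x hx y hy h
          apply ext_of_sum (hF x hx).1 (hF y hy).1 d
          intro k hk
          have h2 := congrFun h k
          simp only [if_neg hk] at h2
          by_cases hki : k = i ∨ k = j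
          · simp only [if_pos hki] at h2
            have hxk : (p : ℤ) ∣ x k := by
              rcases hki with h' | h' <;> rw [h']
              · exact hdi x hx
              · exact hdj x hx
            have hyk : (p : ℤ) ∣ y k := by
              rcases hki with h' | h' <;> rw [h']
              · exact hdi y hy
              · exact hdj y hy
            obtain ⟨u, hu⟩ := hxk
            obtain ⟨v, hv⟩ := hyk
            rw [hu, hv, Int.mul_ediv_cancel_left _ hp', Int.mul_ediv_cancel_left _ hp'] at h2
            rw [hu, hv, h2]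
          · simpa only [if_neg hki] using h2)
        N hN0 (by
          intro x hx k
          rw [hN]
          simp only
          by_cases hkd : k = d
          · rw [if_pos hkd, if_pos hkd]
            simp
          · rw [if_neg hkd, if_neg hkd]
            by_cases hki : k = i ∨ k = j
            · rw [if_pos hki, if_pos hki]
              apply div_le hp0 _ (hxB x hx k).2
              rcases hki with h' | h' <;> rw [h']
              · exact hdi x hx
              · exact hdj x hx
            · rw [if_neg hki, if_neg hki]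
              exact (hxB x hx k).2)
      have h2 := prod_g B N i j d (1 / (p : ℝ)) (1 / (p : ℝ)) (2 * n / (3 * X)) hN0 (by
        intro k
        rw [hN]
        simp only
        by_cases hkd : k = d
        · have hki : k ≠ i := fun h => hdi' (hkd.symm.trans h)
          have hkj : k ≠ j := fun h => hdj' (hkd.symm.trans h)
          rw [if_pos hkd, if_neg hki, if_neg hkj, if_pos hkd, hkd]
          have := hbig d hd
          simp only [one_mul, mul_zero, zero_add]
          exact this
        · rw [if_neg hkd, if_neg hkd]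
          by_cases hki : k = i
          · have hkj : k ≠ j := fun h => hij (hki.symm.trans h)
            rw [if_pos (Or.inl hki), if_pos hki, if_neg hkj, hki]
            have h3 : 1 ≤ B i / (p : ℝ) := by rw [le_div_iff₀ hpr]; linarith
            have h4 : 3 * (1 / (p : ℝ) * (1 * 1)) * B i = 3 * (B i / (p : ℝ)) := by
              field_simp
            rw [h4]
            linarith
          · by_cases hkj : k = j
            · rw [if_pos (Or.inr hkj), if_neg hki, if_pos hkj, hkj]
              have h3 : 1 ≤ B j / (p : ℝ) := by rw [le_div_iff₀ hpr]; linarith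
              have h4 : 3 * (1 * (1 / (p : ℝ) * 1)) * B j = 3 * (B j / (p : ℝ)) := by
                field_simp
              rw [h4]
              linarith
            · rw [if_neg (by tauto), if_neg hki, if_neg hkj]
              have := (hB k).1
              linarith)
      refine (h1.trans h2).trans ?_
      have h6 : 3 ^ n * (1 / (p : ℝ) * (1 / (p : ℝ) * (2 * n / (3 * X)))) * ∏ k, B k =
          (3 ^ n * (2 * n) / 3) * (∏ k, B k) / (X * (p : ℝ) ^ 2) := by field_simp
      rw [h6]
      apply div_le_div_of_nonneg_right _ (by positivity)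
      apply mul_le_mul_of_nonneg_right _ hprod.le
      have h7 : (3 : ℝ) ^ n * (2 * n) / 3 = 3 ^ n * (2 * n) * (1 / 3) := by ring
      have h8 : (3 : ℝ) ^ n * (2 * n * (n * (3 * n + 3))) = 3 ^ n * (2 * n) * (n * (3 * n + 3)) := by
        ring
      rw [h7, h8]
      apply mul_le_mul_of_nonneg_left _ (by positivity)
      nlinarith
    · -- the largest coordinates are `i` and `j`
      push Not at hex
      have hjb : X / (2 * n) ≤ B j := by
        by_cases h1 : l = j
        · rw [← h1]; exact hlbig
        · by_cases h2 : k = j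
          · rw [← h2]; exact hkb
          · exfalso
            have h3 : l = i := by
              by_contra h4
              exact absurd hlbig (not_le.2 (hex l h4 h1))
            have h5 : k ≠ i := fun h => hk (h.trans h3.symm)
            exact absurd hkb (not_le.2 (hex k h5 h2))
      -- one of the other coordinates is large
      have hone : ∀ x ∈ F, ∃ k, k ≠ i ∧ k ≠ j ∧ (p : ℝ) / n ≤ |(x k : ℝ)| := by
        intro x hx
        by_contra hcon
        push Not at hcon
        set I : Finset (Fin n) := (univ.erase i).erase j with hI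
        have hmemI : ∀ k, k ∈ I ↔ k ≠ j ∧ k ≠ i := by
          intro k
          rw [hI, Finset.mem_erase, Finset.mem_erase]
          simp
        have hIne : I.Nonempty := by
          rw [← Finset.card_pos, hI, Finset.card_erase_of_mem (Finset.mem_erase.2 ⟨hij.symm,
            Finset.mem_univ _⟩), Finset.card_erase_of_mem (Finset.mem_univ _), Finset.card_univ,
            Fintype.card_fin]
          omega
        have hIu : I ≠ univ := fun h => by
          have := Finset.mem_univ i
          rw [← h, hmemI] at this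
          exact this.2 rfl
        have hne := (hF x hx).2.1 I hIne hIu
        have hsum : x i + (x j + ∑ k ∈ I, x k) = 0 := by
          have h1 := (hF x hx).1
          rw [← Finset.add_sum_erase _ _ (Finset.mem_univ i), ← Finset.add_sum_erase _ _
            (Finset.mem_erase.2 ⟨hij.symm, Finset.mem_univ _⟩)] at h1
          exact h1
        have hdvd : (p : ℤ) ∣ ∑ k ∈ I, x k := by
          have : ∑ k ∈ I, x k = - (x i + x j) := by linarith
          rw [this]
          exact (dvd_neg).2 (dvd_add (hdi x hx) (hdj x hx))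
        have h3 : (p : ℤ) ≤ |∑ k ∈ I, x k| := Int.le_of_dvd (abs_pos.2 hne) ((dvd_abs _ _).2 hdvd)
        have h4 : (p : ℝ) ≤ |∑ k ∈ I, (x k : ℝ)| := by exact_mod_cast h3
        have h5 : |∑ k ∈ I, (x k : ℝ)| < p := by
          calc |∑ k ∈ I, (x k : ℝ)| ≤ ∑ k ∈ I, |(x k : ℝ)| := Finset.abs_sum_le_sum_abs _ _
            _ < ∑ k ∈ I, (p : ℝ) / n := Finset.sum_lt_sum_of_nonempty hIne fun k hk =>
                hcon k ((hmemI k).1 hk).2 ((hmemI k).1 hk).1
            _ ≤ ∑ k : Fin n, (p : ℝ) / n := by
                apply Finset.sum_le_sum_of_subset_of_nonneg (Finset.subset_univ _)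
                intro _ _ _
                positivity
            _ = p := by
                rw [Finset.sum_const, Finset.card_univ, Fintype.card_fin, nsmul_eq_mul]
                field_simp
        linarith
      have hcov : F ⊆ (univ : Finset (Fin n)).biUnion fun k =>
          F.filter fun x => k ≠ i ∧ k ≠ j ∧ (p : ℝ) / n ≤ |(x k : ℝ)| := by
        intro x hx
        obtain ⟨k, hk⟩ := hone x hx
        exact Finset.mem_biUnion.2 ⟨k, Finset.mem_univ _, Finset.mem_filter.2 ⟨hx, hk⟩⟩
      have hpart : ∀ k : Fin n, ((F.filter fun x => k ≠ i ∧ k ≠ j ∧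
          (p : ℝ) / n ≤ |(x k : ℝ)|).card : ℝ) ≤
          3 ^ n * (1 / (p : ℝ) * ((3 * n + 2) / (3 * p) * (2 * n / (3 * X)))) * ∏ k, B k := by
        intro k₀
        set Fk := F.filter fun x => k₀ ≠ i ∧ k₀ ≠ j ∧ (p : ℝ) / n ≤ |(x k₀ : ℝ)| with hFk
        rcases Fk.eq_empty_or_nonempty with h0 | ⟨x1, hx1⟩
        · rw [h0, Finset.card_empty, Nat.cast_zero]
          positivity
        have hsub : ∀ x ∈ Fk, x ∈ F := fun x hx => (Finset.mem_filter.1 hx).1
        obtain ⟨-, hki, hkj, hk1⟩ := Finset.mem_filter.1 hx1
        have hkB : (p : ℝ) / n ≤ B k₀ := hk1.trans (hxB x1 (hsub x1 hx1) k₀).2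
        set N : Fin n → ℝ := fun k => if k = j then 0 else if k = i then B k / p else
          if k = k₀ then B k / p + 1 else B k with hN
        have hN0 : ∀ k, 0 ≤ N k := by
          intro k
          rw [hN]
          simp only
          have h1 := (hB0 k).le
          split_ifs <;> positivity
        have h1 := cnt Fk (fun x k => if k = j then 0 else if k = i ∨ k = k₀ then x k / (p : ℤ) else x k)
          (by
            intro x hx y hy h
            have hxs := hsub x hx
            have hys := hsub y hy
            have hoth : ∀ k, k ≠ j → k ≠ k₀ → x k = y k := by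
              intro k hk1 hk2
              have h2 := congrFun h k
              simp only [if_neg hk1] at h2
              by_cases hki' : k = i
              · simp only [if_pos (Or.inl hki' : k = i ∨ k = k₀)] at h2
                obtain ⟨u, hu⟩ := hdi x hxs
                obtain ⟨v, hv⟩ := hdi y hys
                rw [hki'] at h2 ⊢
                rw [hu, hv, Int.mul_ediv_cancel_left _ hp', Int.mul_ediv_cancel_left _ hp'] at h2
                rw [hu, hv, h2]
              · have h3 : ¬ (k = i ∨ k = k₀) := by tauto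
                simpa only [if_neg h3] using h2
            apply ext_of_sum (hF x hxs).1 (hF y hys).1 j
            intro k hkj'
            by_cases hk0 : k = k₀
            · -- the class modulo `p`
              rw [hk0]
              have hdv : (p : ℤ) ∣ x k₀ - y k₀ := by
                have h3 : ∑ k, (x k - y k) = 0 := by
                  rw [Finset.sum_sub_distrib, (hF x hxs).1, (hF y hys).1, sub_zero]
                rw [← Finset.add_sum_erase _ _ (Finset.mem_univ k₀)] at h3
                have h4 : (p : ℤ) ∣ ∑ k ∈ univ.erase k₀, (x k - y k) := by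
                  apply Finset.dvd_sum
                  intro k hk
                  have hk' := Finset.ne_of_mem_erase hk
                  by_cases hkj2 : k = j
                  · rw [hkj2]
                    exact dvd_sub (hdj x hxs) (hdj y hys)
                  · rw [hoth k hkj2 hk', sub_self]
                    exact dvd_zero _
                have h5 : x k₀ - y k₀ = - ∑ k ∈ univ.erase k₀, (x k - y k) := by linarith
                rw [h5]
                exact (dvd_neg).2 h4
              obtain ⟨c, hc⟩ := hdv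
              have h2 := congrFun h k₀
              simp only [if_neg hkj, or_true, if_true] at h2
              have h3 : x k₀ = y k₀ + p * c := by linarith
              rw [h3, Int.add_mul_ediv_left _ _ hp'] at h2
              have h4 : c = 0 := by linarith
              rw [h3, h4]
              ring
            · exact hoth k hkj' hk0)
          N hN0 (by
            intro x hx k
            have hxs := hsub x hx
            rw [hN]
            simp only
            by_cases hkd : k = j
            · rw [if_pos hkd, if_pos hkd]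
              simp
            · rw [if_neg hkd, if_neg hkd]
              by_cases hki' : k = i
              · rw [if_pos (Or.inl hki'), if_pos hki', hki']
                exact div_le hp0 (hdi x hxs) (hxB x hxs i).2
              · rw [if_neg hki']
                by_cases hk0 : k = k₀
                · rw [if_pos (Or.inr hk0), if_pos hk0]
                  exact div_le' hp0 (hxB x hxs k).2
                · rw [if_neg (by tauto), if_neg hk0]
                  exact (hxB x hxs k).2)
        have h2 := prod_g B N i k₀ j (1 / (p : ℝ)) ((3 * n + 2) / (3 * p)) (2 * n / (3 * X)) hN0 (by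
          intro k
          rw [hN]
          simp only
          by_cases hkd : k = j
          · have hki' : k ≠ i := fun h => hij (h.symm.trans hkd)
            have hk0 : k ≠ k₀ := fun h => hkj (h.symm.trans hkd)
            rw [if_pos hkd, if_neg hki', if_neg hk0, if_pos hkd, hkd]
            have := hbig j hjb
            simp only [one_mul, mul_zero, zero_add]
            exact this
          · rw [if_neg hkd, if_neg hkd]
            by_cases hki' : k = i
            · have hk0 : k ≠ k₀ := fun h => hki (h.symm.trans hki')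
              rw [if_pos hki', if_pos hki', if_neg hk0, hki']
              have h3 : 1 ≤ B i / (p : ℝ) := by rw [le_div_iff₀ hpr]; linarith
              have h4 : 3 * (1 / (p : ℝ) * (1 * 1)) * B i = 3 * (B i / (p : ℝ)) := by
                field_simp
              rw [h4]
              linarith
            · rw [if_neg hki', if_neg hki']
              by_cases hk0 : k = k₀
              · rw [if_pos hk0, if_pos hk0, hk0]
                have h3 : 1 ≤ n * (B k₀ / (p : ℝ)) := by
                  rw [div_le_iff₀ hn0] at hkB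
                  rw [← mul_div_assoc, le_div_iff₀ hpr]
                  linarith
                have h4 : 3 * (1 * ((3 * (n : ℝ) + 2) / (3 * p) * 1)) * B k₀ =
                    3 * (n * (B k₀ / (p : ℝ))) + 2 * (B k₀ / p) := by
                  field_simp
                rw [h4]
                linarith
              · rw [if_neg hk0, if_neg hk0]
                have := (hB k).1
                linarith)
        exact h1.trans h2
      calc (F.card : ℝ) ≤ ((∑ k : Fin n, (F.filter fun x => k ≠ i ∧ k ≠ j ∧
            (p : ℝ) / n ≤ |(x k : ℝ)|).card : ℕ) : ℝ) := by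
            exact_mod_cast (Finset.card_le_card hcov).trans Finset.card_biUnion_le
        _ = ∑ k : Fin n, ((F.filter fun x => k ≠ i ∧ k ≠ j ∧
            (p : ℝ) / n ≤ |(x k : ℝ)|).card : ℝ) := by push_cast; rfl
        _ ≤ ∑ _k : Fin n, 3 ^ n * (1 / (p : ℝ) * ((3 * n + 2) / (3 * p) * (2 * n / (3 * X)))) *
            ∏ k, B k := Finset.sum_le_sum fun k _ => hpart k
        _ = (3 ^ n * (2 * n) * (n * (3 * n + 2)) / 9) * (∏ k, B k) / (X * (p : ℝ) ^ 2) := by
            rw [Finset.sum_const, Finset.card_univ, Fintype.card_fin, nsmul_eq_mul]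
            field_simp
            ring
        _ ≤ _ := by
            apply div_le_div_of_nonneg_right _ (by positivity)
            apply mul_le_mul_of_nonneg_right _ hprod.le
            have h7 : (3 : ℝ) ^ n * (2 * n) * (n * (3 * n + 2)) / 9 =
              3 ^ n * (2 * n) * (n * ((3 * n + 2) / 9)) := by ring
            have h8 : (3 : ℝ) ^ n * (2 * n * (n * (3 * n + 3))) =
              3 ^ n * (2 * n) * (n * (3 * n + 3)) := by ring
            rw [h7, h8]
            apply mul_le_mul_of_nonneg_left _ (by positivity)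
            apply mul_le_mul_of_nonneg_left _ hn0.le
            linarith

end Pool.Agent.N130.NT
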