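import Pool.Agent.N795.ST.Stm

/-!
# Sums over the points of the torus
-/

set_option autoImplicit false

namespace Pool.Agent.N795.ST

open Finset Equiv

namespace N130NF

/-- displacements of a point -/
def dz {d M : ℕ} (e : Fin d → ZMod M) : Fin d → ℤ := fun i => (e i).valMinAbs

lemma disp_eq {d M : ℕ} (x y : Fin d → ZMod M) : disp x y = dz (x - y) := rfl

lemma dz_inj {d M : ℕ} : Function.Injective (dz : (Fin d → ZMod M) → (Fin d → ℤ)) := by
  intro a b h
  funext i
  exact ZMod.injective_valMinAbs (congrFun h i)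

lemma dz_zero {d M : ℕ} : dz (0 : Fin d → ZMod M) = 0 := by
  funext i
  simp [dz]

lemma le_nrm {d : ℕ} (z : Fin d → ℤ) (i : Fin d) : (z i).natAbs ≤ nrm z :=
  Finset.le_sup (f := fun i => (z i).natAbs) (mem_univ i)

lemma nrm_zero {d : ℕ} : nrm (0 : Fin d → ℤ) = 0 := by
  unfold nrm
  simp

lemma nrm_eq_zero {d : ℕ} {z : Fin d → ℤ} (h : nrm z = 0) : z = 0 := by
  funext i
  have := le_nrm z i
  rw [h] at this
  simpa using this

lemma exists_nrm {d : ℕ} {z : Fin d → ℤ} (h : 1 ≤ nrm z) : ∃ i, (z i).natAbs = nrm z := by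
  have hne : (univ : Finset (Fin d)).Nonempty := by
    rw [Finset.univ_nonempty_iff]
    by_contra hc
    rw [not_nonempty_iff] at hc
    have : nrm z = 0 := by
      unfold nrm
      rw [Finset.univ_eq_empty]
      rfl
    omega
  obtain ⟨i, -, hi⟩ := Finset.exists_mem_eq_sup univ hne fun i => (z i).natAbs
  exact ⟨i, hi.symm⟩

/-- the number of points at a given distance -/
lemma card_nrm {d M : ℕ} [NeZero M] {j : ℕ} (hj : 1 ≤ j) :
    (univ.filter fun e : Fin d → ZMod M => nrm (dz e) = j).card ≤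
      d * (2 * (2 * j + 1) ^ (d - 1)) := by
  classical
  have h1 : (univ.filter fun e : Fin d → ZMod M => nrm (dz e) = j).card ≤
      (univ.biUnion fun i : Fin d => Fintype.piFinset fun k : Fin d =>
        if k = i then ({-(j : ℤ), (j : ℤ)} : Finset ℤ) else Finset.Icc (-(j : ℤ)) j).card := by
    refine Finset.card_le_card_of_injOn dz ?_ (dz_inj.injOn)
    intro e he
    rw [Finset.mem_coe, Finset.mem_filter] at he
    obtain ⟨i, hi⟩ := exists_nrm (z := dz e) (by omega)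
    rw [Finset.mem_coe, Finset.mem_biUnion]
    refine ⟨i, mem_univ i, ?_⟩
    rw [Fintype.mem_piFinset]
    intro k
    have hk := le_nrm (dz e) k
    split_ifs with hki
    · subst hki
      rw [Finset.mem_insert, Finset.mem_singleton]
      omega
    · rw [Finset.mem_Icc]
      omega
  refine h1.trans (Finset.card_biUnion_le.trans ?_)
  have h2 : ∀ i ∈ (univ : Finset (Fin d)), (Fintype.piFinset fun k : Fin d =>
        if k = i then ({-(j : ℤ), (j : ℤ)} : Finset ℤ) else Finset.Icc (-(j : ℤ)) j).card ≤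
      2 * (2 * j + 1) ^ (d - 1) := by
    intro i _
    rw [Fintype.card_piFinset, ← Finset.mul_prod_erase univ _ (mem_univ i)]
    refine Nat.mul_le_mul ?_ ?_
    · rw [if_pos rfl]
      exact Finset.card_le_two
    · refine (Finset.prod_le_pow_card _ _ (2 * j + 1) ?_).trans (le_of_eq ?_)
      · intro k hk
        rw [if_neg (Finset.ne_of_mem_erase hk), Int.card_Icc]
        omega
      · rw [Finset.card_erase_of_mem (mem_univ i), Finset.card_univ, Fintype.card_fin]
  refine (Finset.sum_le_card_nsmul _ _ _ h2).trans (le_of_eq ?_)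
  rw [Finset.card_univ, Fintype.card_fin, smul_eq_mul]

lemma card_nrm' {d M : ℕ} [NeZero M] {j : ℕ} (hj : 1 ≤ j) :
    ((univ.filter fun e : Fin d → ZMod M => nrm (dz e) = j).card : ℝ) ≤
      (d * 2 * 3 ^ (d - 1) : ℝ) * (j : ℝ) ^ (d - 1) := by
  have h := card_nrm (d := d) (M := M) hj
  have h2 : ((univ.filter fun e : Fin d → ZMod M => nrm (dz e) = j).card : ℝ) ≤
      (d * (2 * (2 * j + 1) ^ (d - 1)) : ℕ) := by exact_mod_cast h
  refine h2.trans ?_
  push_cast
  have h3 : (2 * (j : ℝ) + 1) ^ (d - 1) ≤ (3 * j) ^ (d - 1) := by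
    refine pow_le_pow_left₀ (by positivity) ?_ _
    have : (1 : ℝ) ≤ j := by exact_mod_cast hj
    linarith
  rw [mul_pow] at h3
  have hd : (0 : ℝ) ≤ d := by positivity
  nlinarith [mul_le_mul_of_nonneg_left h3 hd]

lemma nrm_dz_lt {d M : ℕ} [NeZero M] (e : Fin d → ZMod M) : nrm (dz e) < M + 1 := by
  rw [Nat.lt_succ_iff]
  unfold nrm
  refine Finset.sup_le fun i _ => ?_
  have := ZMod.valMinAbs_mem_Ioc (e i)
  simp only [Set.mem_Ioc] at this
  show (dz e i).natAbs ≤ M
  have h : dz e i = (e i).valMinAbs := rfl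
  rw [h]
  omega

/-- sum over the points of a function of the distance -/
lemma sum_nrm {d M : ℕ} [NeZero M] (g : ℕ → ℝ) (hg : ∀ j, 0 ≤ g j) (h0 : g 0 = 0) :
    ∑ e : Fin d → ZMod M, g (nrm (dz e)) ≤
      (d * 2 * 3 ^ (d - 1) : ℝ) * ∑ j ∈ range (M + 1), (j : ℝ) ^ (d - 1) * g j := by
  classical
  have h1 : ∑ e : Fin d → ZMod M, g (nrm (dz e)) = ∑ j ∈ range (M + 1),
      ∑ e ∈ univ.filter (fun e : Fin d → ZMod M => nrm (dz e) = j), g (nrm (dz e)) := by
    rw [Finset.sum_fiberwise_of_maps_to]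
    intro e _
    rw [mem_range]
    exact nrm_dz_lt e
  rw [h1, Finset.mul_sum]
  refine Finset.sum_le_sum fun j _ => ?_
  have h2 : ∑ e ∈ univ.filter (fun e : Fin d → ZMod M => nrm (dz e) = j), g (nrm (dz e)) =
      ((univ.filter fun e : Fin d → ZMod M => nrm (dz e) = j).card : ℝ) * g j := by
    rw [← nsmul_eq_mul, ← Finset.sum_const]
    refine Finset.sum_congr rfl fun e he => ?_
    rw [Finset.mem_filter] at he
    rw [he.2]
  rw [h2]
  rcases Nat.eq_zero_or_pos j with hj | hj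
  · subst hj
    rw [h0]
    simp
  · rw [← mul_assoc]
    exact mul_le_mul_of_nonneg_right (card_nrm' hj) (hg j)

/-- one step of the telescoping sum for the far points -/
lemma step_far {σ : ℝ} (hσ : 0 < σ) {j : ℕ} (hj : 1 ≤ j) :
    (j : ℝ) ^ (-1 - σ) ≤ (2 : ℝ) ^ (1 + σ) / σ * ((j : ℝ) ^ (-σ) - ((j + 1 : ℕ) : ℝ) ^ (-σ)) := by
  have hj' : (1 : ℝ) ≤ j := by exact_mod_cast hj
  have h0 : (0 : ℝ) < j := by linarith
  push_cast
  have hb : (0 : ℝ) < (j : ℝ) + 1 := by linarith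
  have e1 : (j : ℝ) ^ (-σ) = ((j : ℝ) + 1) ^ (-σ) * ((j : ℝ) / (j + 1)) ^ (-σ) := by
    rw [← Real.mul_rpow hb.le (by positivity)]
    congr 1
    field_simp
  have e2 : 1 + σ / (j + 1) ≤ ((j : ℝ) / (j + 1)) ^ (-σ) := by
    have hq : (0 : ℝ) < (j : ℝ) / (j + 1) := by positivity
    rw [Real.rpow_def_of_pos hq]
    have h1 := Real.add_one_le_exp (Real.log ((j : ℝ) / (j + 1)) * -σ)
    have h2 := Real.log_le_sub_one_of_pos hq
    have h3 : (j : ℝ) / (j + 1) - 1 = -(1 / (j + 1)) := by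
      field_simp
      ring
    rw [h3] at h2
    have h4 : σ * (1 / ((j : ℝ) + 1)) ≤ Real.log ((j : ℝ) / (j + 1)) * -σ := by nlinarith
    have h5 : σ / ((j : ℝ) + 1) = σ * (1 / ((j : ℝ) + 1)) := by ring
    rw [h5]
    linarith
  have e3 : ((j : ℝ) + 1) ^ (-σ) * (σ / (j + 1)) ≤ (j : ℝ) ^ (-σ) - ((j : ℝ) + 1) ^ (-σ) := by
    have hp : 0 < ((j : ℝ) + 1) ^ (-σ) := Real.rpow_pos_of_pos hb _
    nlinarith [mul_le_mul_of_nonneg_left e2 hp.le]
  have e4 : ((j : ℝ) + 1) ^ (-σ) * (σ / (j + 1)) = σ * ((j : ℝ) + 1) ^ (-1 - σ) := by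
    have : (-1 - σ : ℝ) = -σ + -1 := by ring
    rw [this, Real.rpow_add hb, Real.rpow_neg_one]
    field_simp
  have e5 : (2 * (j : ℝ)) ^ (-1 - σ) ≤ ((j : ℝ) + 1) ^ (-1 - σ) := by
    refine Real.rpow_le_rpow_of_nonpos hb (by linarith) (by linarith)
  rw [Real.mul_rpow (by norm_num) h0.le] at e5
  have e6 : (2 : ℝ) ^ (1 + σ) * (2 : ℝ) ^ (-1 - σ) = 1 := by
    rw [← Real.rpow_add (by norm_num)]
    have : (1 + σ + (-1 - σ) : ℝ) = 0 := by ring
    rw [this, Real.rpow_zero]
  have h2p : (0 : ℝ) < (2 : ℝ) ^ (1 + σ) := Real.rpow_pos_of_pos (by norm_num) _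
  rw [e4] at e3
  calc (j : ℝ) ^ (-1 - σ) = (2 : ℝ) ^ (1 + σ) * ((2 : ℝ) ^ (-1 - σ) * (j : ℝ) ^ (-1 - σ)) := by
        rw [← mul_assoc, e6, one_mul]
    _ ≤ (2 : ℝ) ^ (1 + σ) * ((j : ℝ) + 1) ^ (-1 - σ) := mul_le_mul_of_nonneg_left e5 h2p.le
    _ = (2 : ℝ) ^ (1 + σ) / σ * (σ * ((j : ℝ) + 1) ^ (-1 - σ)) := by field_simp
    _ ≤ _ := mul_le_mul_of_nonneg_left e3 (by positivity)

lemma sum_far {σ : ℝ} (hσ : 0 < σ) (R : ℝ) (hR : 1 ≤ R) (m : ℕ) :
    ∑ j ∈ range m, (if R ≤ (j : ℝ) then (j : ℝ) ^ (-1 - σ) else 0) ≤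
      (2 : ℝ) ^ (1 + σ) / σ * R ^ (-σ) := by
  have hc : (0 : ℝ) ≤ (2 : ℝ) ^ (1 + σ) / σ := by positivity
  -- stronger: minus the last term
  have key : ∀ m : ℕ, ∑ j ∈ range m, (if R ≤ (j : ℝ) then (j : ℝ) ^ (-1 - σ) else 0) ≤
      (2 : ℝ) ^ (1 + σ) / σ * (R ^ (-σ) - (if R ≤ (m : ℝ) then (m : ℝ) ^ (-σ) else R ^ (-σ))) := by
    intro m
    induction m with
    | zero =>
      rw [Finset.range_zero, Finset.sum_empty, if_neg (by push_cast; linarith), sub_self, mul_zero]
    | succ m ih =>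
      rw [Finset.sum_range_succ]
      by_cases h1 : R ≤ (m : ℝ)
      · have h2 : R ≤ ((m + 1 : ℕ) : ℝ) := by push_cast; linarith
        rw [if_pos h1] at ih ⊢
        rw [if_pos h2]
        have hm : 1 ≤ m := by
          have : (1 : ℝ) ≤ m := hR.trans h1
          exact_mod_cast this
        have h3 := step_far hσ hm
        nlinarith
      · rw [if_neg h1] at ih ⊢
        rw [add_zero]
        refine ih.trans (mul_le_mul_of_nonneg_left ?_ hc)
        split_ifs with h2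
        · have : ((m + 1 : ℕ) : ℝ) ^ (-σ) ≤ R ^ (-σ) :=
            Real.rpow_le_rpow_of_nonpos (by linarith) h2 (by linarith)
          linarith
        · exact le_rfl
  refine (key m).trans (mul_le_mul_of_nonneg_left ?_ hc)
  split_ifs with h
  · have : (0 : ℝ) ≤ (m : ℝ) ^ (-σ) := Real.rpow_nonneg (by positivity) _
    linarith
  · have : (0 : ℝ) ≤ R ^ (-σ) := Real.rpow_nonneg (by linarith) _
    linarith

/-- one step of the telescoping sum for the close points -/
lemma step_near {σ : ℝ} (hσ : 0 < σ) (hσ1 : σ < 1) (j : ℕ) :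
    ((j + 1 : ℕ) : ℝ) ^ (-σ) ≤ 1 / (1 - σ) *
      (((j + 1 : ℕ) : ℝ) ^ (1 - σ) - (j : ℝ) ^ (1 - σ)) := by
  push_cast
  have hb : (0 : ℝ) < (j : ℝ) + 1 := by positivity
  have h1 : (1 + (-(1 / ((j : ℝ) + 1)))) ^ (1 - σ) ≤ 1 + (1 - σ) * (-(1 / ((j : ℝ) + 1))) := by
    refine rpow_one_add_le_one_add_mul_self ?_ (by linarith) (by linarith)
    have : 1 / ((j : ℝ) + 1) ≤ 1 := by
      rw [div_le_one hb]
      have : (0 : ℝ) ≤ j := by positivity
      linarith
    linarith
  have e1 : 1 + (-(1 / ((j : ℝ) + 1))) = (j : ℝ) / (j + 1) := by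
    field_simp
    ring
  rw [e1] at h1
  have e2 : (j : ℝ) ^ (1 - σ) = ((j : ℝ) + 1) ^ (1 - σ) * ((j : ℝ) / (j + 1)) ^ (1 - σ) := by
    rw [← Real.mul_rpow hb.le (by positivity)]
    congr 1
    field_simp
  have hp : 0 < ((j : ℝ) + 1) ^ (1 - σ) := Real.rpow_pos_of_pos hb _
  have e3 : ((j : ℝ) + 1) ^ (-σ) = ((j : ℝ) + 1) ^ (1 - σ) * (1 / ((j : ℝ) + 1)) := by
    have : (-σ : ℝ) = (1 - σ) + -1 := by ring
    rw [this, Real.rpow_add hb, Real.rpow_neg_one]
    ring_nf
  have h3 := mul_le_mul_of_nonneg_left h1 hp.le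
  rw [← e2] at h3
  have h4 : (1 - σ) * ((j : ℝ) + 1) ^ (-σ) ≤ ((j : ℝ) + 1) ^ (1 - σ) - (j : ℝ) ^ (1 - σ) := by
    rw [e3]
    nlinarith
  have h5 : (0 : ℝ) < 1 - σ := by linarith
  rw [one_div, inv_mul_eq_div, le_div_iff₀ h5]
  linarith

lemma sum_near {σ : ℝ} (hσ : 0 < σ) (hσ1 : σ < 1) (R : ℝ) (hR : 0 < R) (m : ℕ) :
    ∑ j ∈ range m, (if 0 < j ∧ (j : ℝ) < R then (j : ℝ) ^ (-σ) else 0) ≤
      1 / (1 - σ) * R ^ (1 - σ) := by
  have h5 : (0 : ℝ) < 1 - σ := by linarith
  have hc : (0 : ℝ) ≤ 1 / (1 - σ) := by positivity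
  have key : ∀ m : ℕ, ∑ j ∈ range (m + 1), (if 0 < j ∧ (j : ℝ) < R then (j : ℝ) ^ (-σ) else 0) ≤
      1 / (1 - σ) * (min (m : ℝ) R) ^ (1 - σ) := by
    intro m
    induction m with
    | zero =>
      rw [Finset.sum_range_one, if_neg (by simp)]
      have : (0 : ℝ) ≤ (min ((0 : ℕ) : ℝ) R) ^ (1 - σ) :=
        Real.rpow_nonneg (le_min (by simp) hR.le) _
      positivity
    | succ m ih =>
      rw [Finset.sum_range_succ]
      by_cases h1 : ((m + 1 : ℕ) : ℝ) < R
      · rw [if_pos ⟨Nat.succ_pos m, h1⟩, min_eq_left h1.le]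
        have h2 : (m : ℝ) ≤ R := by
          have : (m : ℝ) ≤ ((m + 1 : ℕ) : ℝ) := by push_cast; linarith
          linarith
        rw [min_eq_left h2] at ih
        have h3 := step_near hσ hσ1 m
        nlinarith
      · rw [if_neg (fun h => h1 h.2), add_zero]
        refine ih.trans (mul_le_mul_of_nonneg_left ?_ hc)
        refine Real.rpow_le_rpow (le_min (by positivity) hR.le) ?_ h5.le
        refine min_le_min ?_ le_rfl
        push_cast
        linarith
  rcases m with _ | m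
  · rw [Finset.range_zero, Finset.sum_empty]
    have : 0 ≤ R ^ (1 - σ) := Real.rpow_nonneg hR.le _
    positivity
  · refine (key m).trans (mul_le_mul_of_nonneg_left ?_ hc)
    exact Real.rpow_le_rpow (le_min (by positivity) hR.le) (min_le_right _ _) h5.le

lemma val_sub {M n : ℕ} [NeZero M] [NeZero n] (hn : n ∣ M) (a b : ZMod M)
    (h0 : 0 ≤ ((a.val % n : ℕ) : ℤ) - b.valMinAbs) (h1 : ((a.val % n : ℕ) : ℤ) - b.valMinAbs < n) :
    (a - b).val / n = a.val / n ∧
      (((a - b).val % n : ℕ) : ℤ) = ((a.val % n : ℕ) : ℤ) - b.valMinAbs := by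
  have hn0 : 0 < n := Nat.pos_of_ne_zero (NeZero.ne n)
  obtain ⟨s, hs⟩ : ∃ s : ℕ, (s : ℤ) = ((a.val % n : ℕ) : ℤ) - b.valMinAbs :=
    ⟨_, Int.toNat_of_nonneg h0⟩
  have hsn : s < n := by omega
  have hlt : n * (a.val / n) + s < M := by
    have h2 : a.val < M := ZMod.val_lt a
    obtain ⟨k, hk⟩ := hn
    have h3 : a.val / n < k := by
      rw [Nat.div_lt_iff_lt_mul hn0, mul_comm, ← hk]
      exact h2
    calc n * (a.val / n) + s < n * (a.val / n) + n := by omega
      _ = n * (a.val / n + 1) := by ring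
      _ ≤ n * k := Nat.mul_le_mul_left _ h3
      _ = M := hk.symm
  have hcast : ((n * (a.val / n) + s : ℕ) : ZMod M) = a - b := by
    have h4 : ((n * (a.val / n) + s : ℕ) : ℤ) = (a.val : ℤ) - b.valMinAbs := by
      have h5 : ((n * (a.val / n) + a.val % n : ℕ) : ℤ) = (a.val : ℤ) := by
        rw [Nat.div_add_mod]
      push_cast at h5 ⊢
      push_cast at hs
      linarith
    calc ((n * (a.val / n) + s : ℕ) : ZMod M) = (((n * (a.val / n) + s : ℕ) : ℤ) : ZMod M) :=
          (Int.cast_natCast _).symm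
      _ = (((a.val : ℤ) - b.valMinAbs : ℤ) : ZMod M) := by rw [h4]
      _ = a - b := by
          rw [Int.cast_sub, ZMod.coe_valMinAbs, Int.cast_natCast, ZMod.natCast_zmod_val]
  have hval : (a - b).val = n * (a.val / n) + s := by
    rw [← hcast]
    exact ZMod.val_cast_of_lt hlt
  rw [hval]
  constructor
  · rw [Nat.mul_add_div hn0, Nat.div_eq_of_lt hsn, add_zero]
  · rw [Nat.mul_add_mod, Nat.mod_eq_of_lt hsn, hs]

/-- the residues for which a shift leaves the box -/
lemma card_bad {M n : ℕ} [NeZero M] [NeZero n] (hn : n ∣ M) (z : ℤ) :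
    n * (univ.filter fun a : ZMod M => ¬ (0 ≤ ((a.val % n : ℕ) : ℤ) - z ∧
      ((a.val % n : ℕ) : ℤ) - z < n)).card ≤ M * z.natAbs := by
  classical
  have hn0 : 0 < n := Nat.pos_of_ne_zero (NeZero.ne n)
  have hT : ((Finset.range n).filter fun r => ¬ (0 ≤ ((r : ℕ) : ℤ) - z ∧
      ((r : ℕ) : ℤ) - z < n)).card ≤ z.natAbs := by
    rcases le_total 0 z with hz | hz
    · have : ((Finset.range n).filter fun r => ¬ (0 ≤ ((r : ℕ) : ℤ) - z ∧
          ((r : ℕ) : ℤ) - z < n)) ⊆ Finset.range z.natAbs := by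
        intro r hr
        rw [Finset.mem_filter, Finset.mem_range] at hr
        rw [Finset.mem_range]
        omega
      simpa using Finset.card_le_card this
    · have : ((Finset.range n).filter fun r => ¬ (0 ≤ ((r : ℕ) : ℤ) - z ∧
          ((r : ℕ) : ℤ) - z < n)) ⊆ Finset.Ico (n - z.natAbs) n := by
        intro r hr
        rw [Finset.mem_filter, Finset.mem_range] at hr
        rw [Finset.mem_Ico]
        omega
      refine (Finset.card_le_card this).trans ?_
      rw [Nat.card_Ico]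
      omega
  have h1 : (univ.filter fun a : ZMod M => ¬ (0 ≤ ((a.val % n : ℕ) : ℤ) - z ∧
      ((a.val % n : ℕ) : ℤ) - z < n)).card ≤ (Finset.range (M / n) ×ˢ
        ((Finset.range n).filter fun r => ¬ (0 ≤ ((r : ℕ) : ℤ) - z ∧
      ((r : ℕ) : ℤ) - z < n))).card := by
    refine Finset.card_le_card_of_injOn (fun a => (a.val / n, a.val % n)) ?_ ?_
    · intro a ha
      rw [Finset.mem_coe, Finset.mem_filter] at ha
      rw [Finset.mem_coe, Finset.mem_product, Finset.mem_filter, Finset.mem_range,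
        Finset.mem_range]
      refine ⟨?_, Nat.mod_lt _ hn0, ha.2⟩
      rw [Nat.div_lt_iff_lt_mul hn0, Nat.div_mul_cancel hn]
      exact ZMod.val_lt a
    · intro a _ b _ hab
      have h2 := congrArg Prod.fst hab
      have h3 := congrArg Prod.snd hab
      simp only at h2 h3
      refine ZMod.val_injective M ?_
      rw [← Nat.div_add_mod a.val n, ← Nat.div_add_mod b.val n, h2, h3]
  rw [Finset.card_product, Finset.card_range] at h1
  calc n * _ ≤ n * (M / n * z.natAbs) := Nat.mul_le_mul_left _ (h1.trans (Nat.mul_le_mul_left _ hT))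
    _ = (M / n * n) * z.natAbs := by ring
    _ = M * z.natAbs := by rw [Nat.div_mul_cancel hn]

lemma card_coord {d M : ℕ} [NeZero M] (i : Fin d) (P : ZMod M → Prop) [DecidablePred P] :
    (univ.filter fun x : Fin d → ZMod M => P (x i)).card =
      (univ.filter P).card * M ^ (d - 1) := by
  classical
  have h1 : (univ.filter fun x : Fin d → ZMod M => P (x i)) =
      Fintype.piFinset fun k : Fin d => if k = i then univ.filter P else univ := by
    ext x
    rw [Finset.mem_filter, Fintype.mem_piFinset]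
    constructor
    · intro h k
      split_ifs with hk
      · subst hk
        rw [Finset.mem_filter]
        exact ⟨mem_univ _, h.2⟩
      · exact mem_univ _
    · intro h
      have := h i
      rw [if_pos rfl, Finset.mem_filter] at this
      exact ⟨mem_univ _, this.2⟩
  rw [h1, Fintype.card_piFinset, ← Finset.mul_prod_erase univ _ (mem_univ i), if_pos rfl]
  congr 1
  have : ∀ k ∈ univ.erase i, (if k = i then univ.filter P else (univ : Finset (ZMod M))).card = M := by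
    intro k hk
    rw [if_neg (Finset.ne_of_mem_erase hk), Finset.card_univ, ZMod.card]
  rw [Finset.prod_congr rfl this, Finset.prod_const, Finset.card_erase_of_mem (mem_univ i),
    Finset.card_univ, Fintype.card_fin]

/-- the number of points that leave the core of their box -/
lemma card_core {d M n : ℕ} [NeZero M] [NeZero n] (hd : 1 ≤ d) (hn : n ∣ M) (e : Fin d → ZMod M)
    (he : 2 * nrm (dz e) < n) (P : (Fin d → ZMod M) → Prop) [DecidablePred P]
    (hP : ∀ x, P x → ¬ bcore n x (x - e)) :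
    n * (univ.filter P).card ≤ Fintype.card (Fin d → ZMod M) * (d * nrm (dz e)) := by
  classical
  have h1 : (univ.filter P) ⊆ univ.biUnion fun i : Fin d =>
      univ.filter fun x : Fin d → ZMod M => ¬ (0 ≤ (((x i).val % n : ℕ) : ℤ) - dz e i ∧
        (((x i).val % n : ℕ) : ℤ) - dz e i < n) := by
    intro x hx
    rw [Finset.mem_filter] at hx
    by_contra hc
    rw [Finset.mem_biUnion] at hc
    push Not at hc
    refine hP x hx.2 fun i => ?_
    have h2 := hc i (mem_univ i)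
    rw [Finset.mem_filter] at h2
    push Not at h2
    have h3 := h2 (mem_univ _)
    have h4 := val_sub hn (x i) (e i) h3.1 h3.2
    have h5 : (x - e) i = x i - e i := rfl
    rw [h5]
    refine ⟨h4.1.symm, ?_⟩
    rw [h4.2]
    have h6 := le_nrm (dz e) i
    have h7 : dz e i = (e i).valMinAbs := rfl
    rw [h7] at h6
    have h8 : (((x i).val % n : ℕ) : ℤ) - ((((x i).val % n : ℕ) : ℤ) - (e i).valMinAbs) =
        (e i).valMinAbs := by ring
    rw [h8, Int.abs_eq_natAbs]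
    omega
  have h2 : n * (univ.filter P).card ≤ ∑ i : Fin d, n * (univ.filter fun x : Fin d → ZMod M =>
      ¬ (0 ≤ (((x i).val % n : ℕ) : ℤ) - dz e i ∧
        (((x i).val % n : ℕ) : ℤ) - dz e i < n)).card := by
    rw [← Finset.mul_sum]
    exact Nat.mul_le_mul_left _ ((Finset.card_le_card h1).trans Finset.card_biUnion_le)
  refine h2.trans ?_
  have h3 : ∀ i ∈ (univ : Finset (Fin d)), n * (univ.filter fun x : Fin d → ZMod M =>
      ¬ (0 ≤ (((x i).val % n : ℕ) : ℤ) - dz e i ∧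
        (((x i).val % n : ℕ) : ℤ) - dz e i < n)).card ≤ M ^ d * nrm (dz e) := by
    intro i _
    rw [card_coord i (fun a : ZMod M => ¬ (0 ≤ ((a.val % n : ℕ) : ℤ) - dz e i ∧
      ((a.val % n : ℕ) : ℤ) - dz e i < n)), ← mul_assoc]
    calc _ ≤ M * (dz e i).natAbs * M ^ (d - 1) := Nat.mul_le_mul_right _ (card_bad hn (dz e i))
      _ ≤ M * nrm (dz e) * M ^ (d - 1) :=
          Nat.mul_le_mul_right _ (Nat.mul_le_mul_left _ (le_nrm _ i))
      _ = M ^ d * nrm (dz e) := by
          obtain ⟨k, rfl⟩ : ∃ k, d = k + 1 := ⟨d - 1, by omega⟩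
          rw [Nat.add_sub_cancel, pow_succ]
          ring
  refine (Finset.sum_le_card_nsmul _ _ _ h3).trans (le_of_eq ?_)
  rw [Finset.card_univ, Fintype.card_fin, smul_eq_mul, Fintype.card_fun, ZMod.card,
    Fintype.card_fin]
  ring

lemma bcore_self {d M n : ℕ} [NeZero n] (x : Fin d → ZMod M) : bcore n x x := by
  intro i
  refine ⟨rfl, ?_⟩
  rw [sub_self, abs_zero, mul_zero]
  exact_mod_cast Nat.pos_of_ne_zero (NeZero.ne n)

end N130NF

open N130NF

theorem far_sum : FarSum := by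
  intro d σ hd hσ
  refine ⟨(d * 2 * 3 ^ (d - 1) : ℝ) * ((2 : ℝ) ^ (1 + σ) / σ), ?_, ?_⟩
  · have : (0 : ℝ) < d := by exact_mod_cast hd
    positivity
  intro M _ x R hR
  classical
  have h1 : ∑ y : Fin d → ZMod M,
      (if R ≤ (nrm (disp x y) : ℝ) then (nrm (disp x y) : ℝ) ^ (-((d : ℝ) + σ)) else 0) =
      ∑ e : Fin d → ZMod M,
      (if R ≤ (nrm (dz e) : ℝ) then (nrm (dz e) : ℝ) ^ (-((d : ℝ) + σ)) else 0) := by
    rw [← Equiv.sum_comp (Equiv.subLeft x)]
    refine Finset.sum_congr rfl fun e _ => ?_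
    have : disp x ((Equiv.subLeft x) e) = dz e := by
      rw [disp_eq]
      simp
    rw [this]
  have h2 := sum_nrm (d := d) (M := M)
    (fun j => if R ≤ (j : ℝ) then (j : ℝ) ^ (-((d : ℝ) + σ)) else 0)
    (by
      intro j
      show (0 : ℝ) ≤ if R ≤ (j : ℝ) then (j : ℝ) ^ (-((d : ℝ) + σ)) else 0
      split_ifs
      · positivity
      · exact le_rfl)
    (by
      show (if R ≤ ((0 : ℕ) : ℝ) then ((0 : ℕ) : ℝ) ^ (-((d : ℝ) + σ)) else 0) = 0
      rw [if_neg (by push_cast; linarith)])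
  have h3 : ∑ j ∈ range (M + 1), (j : ℝ) ^ (d - 1) *
      (if R ≤ (j : ℝ) then (j : ℝ) ^ (-((d : ℝ) + σ)) else 0) =
      ∑ j ∈ range (M + 1), (if R ≤ (j : ℝ) then (j : ℝ) ^ (-1 - σ) else 0) := by
    refine Finset.sum_congr rfl fun j _ => ?_
    split_ifs with h
    · have hj : (0 : ℝ) < j := by linarith
      rw [← Real.rpow_natCast, ← Real.rpow_add hj]
      congr 1
      rw [Nat.cast_sub hd]
      push_cast
      ring
    · rw [mul_zero]
  have h4 := sum_far hσ R hR (M + 1)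
  convert (h1.le.trans h2).trans ?_ using 1
  rw [h3, mul_assoc _ ((2 : ℝ) ^ (1 + σ) / σ)]
  exact mul_le_mul_of_nonneg_left h4 (by positivity)

theorem near_sum : NearSum := by
  intro d σ hd hσ hσ1
  have hd0 : (0 : ℝ) < d := by exact_mod_cast hd
  have h1σ : (0 : ℝ) < 1 - σ := by linarith
  refine ⟨(d * 2 * 3 ^ (d - 1) : ℝ) * (d * (1 / (1 - σ))), by positivity, ?_⟩
  intro M n _ _ R hn hR hRn
  classical
  have hn0 : (0 : ℝ) < n := by exact_mod_cast Nat.pos_of_ne_zero (NeZero.ne n)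
  obtain ⟨T, hT⟩ : ∃ T : ℝ, T = (Fintype.card (Fin d → ZMod M) : ℝ) := ⟨_, rfl⟩
  have hT0 : 0 ≤ T := by rw [hT]; positivity
  obtain ⟨g, hg⟩ : ∃ g : ℕ → ℝ, g = fun j : ℕ => if 0 < j ∧ (j : ℝ) < R then
    (j : ℝ) ^ (-((d : ℝ) + σ)) * (T * d * j / n) else 0 := ⟨_, rfl⟩
  -- substitution
  have h1 : ∑ x : Fin d → ZMod M, ∑ y, (if ¬ bcore n x y ∧ (nrm (disp x y) : ℝ) < R
        then (nrm (disp x y) : ℝ) ^ (-((d : ℝ) + σ)) else 0) =
      ∑ e : Fin d → ZMod M, ∑ x : Fin d → ZMod M, (if ¬ bcore n x (x - e) ∧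
        (nrm (dz e) : ℝ) < R then (nrm (dz e) : ℝ) ^ (-((d : ℝ) + σ)) else 0) := by
    rw [Finset.sum_comm (s := (univ : Finset (Fin d → ZMod M)))
      (t := (univ : Finset (Fin d → ZMod M)))
      (f := fun e x => (if ¬ bcore n x (x - e) ∧
        (nrm (dz e) : ℝ) < R then (nrm (dz e) : ℝ) ^ (-((d : ℝ) + σ)) else 0))]
    refine Finset.sum_congr rfl fun x _ => ?_
    rw [← Equiv.sum_comp (Equiv.subLeft x)]
    refine Finset.sum_congr rfl fun e _ => ?_
    have h2 : disp x ((Equiv.subLeft x) e) = dz e := by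
      rw [disp_eq]
      simp
    rw [h2]
    rfl
  have h2 : ∀ e : Fin d → ZMod M, ∑ x : Fin d → ZMod M, (if ¬ bcore n x (x - e) ∧
        (nrm (dz e) : ℝ) < R then (nrm (dz e) : ℝ) ^ (-((d : ℝ) + σ)) else 0) ≤
        g (nrm (dz e)) := by
    intro e
    rw [hg]
    show _ ≤ if 0 < nrm (dz e) ∧ (nrm (dz e) : ℝ) < R then
      (nrm (dz e) : ℝ) ^ (-((d : ℝ) + σ)) * (T * d * nrm (dz e) / n) else 0
    by_cases h3 : (nrm (dz e) : ℝ) < R
    · rcases Nat.eq_zero_or_pos (nrm (dz e)) with h4 | h4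
      · have h5 : e = 0 := dz_inj ((nrm_eq_zero h4).trans dz_zero.symm)
        rw [if_neg (by omega)]
        refine le_of_eq (Finset.sum_eq_zero fun x _ => ?_)
        rw [if_neg]
        intro h6
        refine h6.1 ?_
        rw [h5, sub_zero]
        exact bcore_self x
      · rw [if_pos ⟨h4, h3⟩]
        have h5 : ∑ x : Fin d → ZMod M, (if ¬ bcore n x (x - e) ∧
            (nrm (dz e) : ℝ) < R then (nrm (dz e) : ℝ) ^ (-((d : ℝ) + σ)) else 0) =
            (nrm (dz e) : ℝ) ^ (-((d : ℝ) + σ)) *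
              ((univ.filter fun x : Fin d → ZMod M => ¬ bcore n x (x - e)).card : ℝ) := by
          rw [Finset.card_filter, Nat.cast_sum, Finset.mul_sum]
          refine Finset.sum_congr rfl fun x _ => ?_
          by_cases h6 : bcore n x (x - e)
          · simp [h6]
          · simp [h6, h3]
        rw [h5]
        refine mul_le_mul_of_nonneg_left ?_ (by positivity)
        have h6 : 2 * nrm (dz e) < n := by
          have : (2 : ℝ) * nrm (dz e) < n := by linarith
          exact_mod_cast this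
        have h7 := card_core hd hn e h6 (fun x => ¬ bcore n x (x - e)) (fun x hx => hx)
        have h8 : (n : ℝ) * ((univ.filter fun x : Fin d → ZMod M =>
            ¬ bcore n x (x - e)).card : ℝ) ≤ T * (d * nrm (dz e)) := by
          rw [hT]
          exact_mod_cast h7
        rw [le_div_iff₀ hn0]
        linarith
    · rw [if_neg (fun h => h3 h.2)]
      refine le_of_eq (Finset.sum_eq_zero fun x _ => ?_)
      rw [if_neg (fun h => h3 h.2)]
  have h3 := sum_nrm (d := d) (M := M) g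
    (by
      intro j
      rw [hg]
      show (0 : ℝ) ≤ if 0 < j ∧ (j : ℝ) < R then
        (j : ℝ) ^ (-((d : ℝ) + σ)) * (T * d * j / n) else 0
      split_ifs
      · positivity
      · exact le_rfl)
    (by
      rw [hg]
      show (if 0 < 0 ∧ ((0 : ℕ) : ℝ) < R then
        ((0 : ℕ) : ℝ) ^ (-((d : ℝ) + σ)) * (T * d * ((0 : ℕ) : ℝ) / n) else 0) = 0
      rw [if_neg (by simp)])
  have h4 : ∑ j ∈ range (M + 1), (j : ℝ) ^ (d - 1) * g j =
      (T * d / n) * ∑ j ∈ range (M + 1), (if 0 < j ∧ (j : ℝ) < R then (j : ℝ) ^ (-σ) else 0) := by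
    rw [Finset.mul_sum]
    refine Finset.sum_congr rfl fun j _ => ?_
    rw [hg]
    show (j : ℝ) ^ (d - 1) * (if 0 < j ∧ (j : ℝ) < R then
        (j : ℝ) ^ (-((d : ℝ) + σ)) * (T * d * j / n) else 0) = _
    split_ifs with h
    · have hj : (0 : ℝ) < j := by exact_mod_cast h.1
      have e1 : (j : ℝ) ^ (d - 1) * ((j : ℝ) ^ (-((d : ℝ) + σ)) * (T * d * j / n)) =
          (T * d / n) * (((j : ℝ) ^ (d - 1) * j) * (j : ℝ) ^ (-((d : ℝ) + σ))) := by ring
      rw [e1, ← pow_succ, Nat.sub_add_cancel hd, ← Real.rpow_natCast, ← Real.rpow_add hj]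
      congr 2
      ring
    · ring
  have h5 := sum_near hσ hσ1 R hR (M + 1)
  have h6 : (0 : ℝ) ≤ T * d / n := by positivity
  convert ((h1.le.trans (Finset.sum_le_sum fun e _ => h2 e)).trans h3).trans ?_ using 1
  rw [h4, ← hT]
  have h7 := mul_le_mul_of_nonneg_left (mul_le_mul_of_nonneg_left h5 h6)
    (show (0 : ℝ) ≤ (d * 2 * 3 ^ (d - 1) : ℝ) by positivity)
  refine h7.trans (le_of_eq ?_)
  ring

end Pool.Agent.N795.ST
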